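import Pool.Agent.N637.SLK.Ari
import Pool.Agent.N954.SLX.LocTwo

/-!
# Project SLK (helper637): the place `2` and the real place, solvability

Author: helper691, after `Pool/Agent/N954/SLX/LocTwo.lean` (helper954).
-/

set_option autoImplicit false

namespace Pool.Agent.N691.SLK

open Pool.Agent.N637.SLK (Cv S_LT S_L2 S_LR)
open Pool.Agent.TH841.SH (LocC)
open Pool.Agent.N637.P21 (sq8)
open Pool.Agent.N954.SLX (sqI norm_res)

/-- change of the square classes -/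
theorem chg {K : Type} [Field K] {a b c d1 d2 : ℤ} (d1' d2' : ℤ) (h : LocC K a b c d1' d2')
    (n1 : (d1' : K) ≠ 0) (n2 : (d2' : K) ≠ 0) (s1 : IsSquare ((d1' : K) * d1))
    (s2 : IsSquare ((d2' : K) * d2)) : LocC K a b c d1 d2 := by
  obtain ⟨x, y, hy, he, ⟨r1, h1⟩, ⟨r2, h2⟩⟩ := h
  obtain ⟨t1, ht1⟩ := s1
  obtain ⟨t2, ht2⟩ := s2
  refine ⟨x, y, hy, he, ⟨r1 * t1 / d1', ?_⟩, ⟨r2 * t2 / d2', ?_⟩⟩
  · field_simp
    linear_combination ((d1' : K) * d1) * h1 + r1 * r1 * ht1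
  · field_simp
    linear_combination ((d2' : K) * d2) * h2 + r2 * r2 * ht2

theorem odd_sq {n : ℤ} (h : n % 2 = 1) : (n ^ 2) % 8 = 1 := by
  have h2 : n % 8 = 1 ∨ n % 8 = 3 ∨ n % 8 = 5 ∨ n % 8 = 7 := by omega
  rw [pow_two, Int.mul_emod]
  rcases h2 with h2 | h2 | h2 | h2 <;> rw [h2] <;> norm_num

/-- the points with `x = (a s / 2 ^ k) ^ 2` -/
theorem pt {m a c d1 d2 : ℤ} (s : ℤ) (k j : ℕ) (D t : ℤ) (ha : a % 2 = 1) (hs : s ≠ 0)
    (hD : s ^ 2 - 4 ^ k * m = 2 ^ j * D) (hDo : D % 2 = 1)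
    (ht : 4 ^ k * c ^ 2 * m = 2 ^ j * (8 * t)) (h1 : IsSquare (d1 : ℚ_[2]))
    (h2 : IsSquare ((d2 * (2 ^ j * D) : ℤ) : ℚ_[2])) :
    LocC ℚ_[2] 0 (a ^ 2 * m) (-(c ^ 2 - a ^ 2) * m) d1 d2 := by
  have hw : (D * (a ^ 2 * D + 8 * t)) % 8 = 1 := by
    have e : D * (a ^ 2 * D + 8 * t) = (a * D) ^ 2 + 8 * (D * t) := by ring
    have h3 : (a * D) % 2 = 1 := by rw [Int.mul_emod, ha, hDo]; norm_num
    have h4 := odd_sq h3
    rw [e]
    omega
  have hw0 : ((D * (a ^ 2 * D + 8 * t) : ℤ) : ℚ_[2]) ≠ 0 := by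
    intro h
    have h' : D * (a ^ 2 * D + 8 * t) = 0 := by exact_mod_cast h
    rw [h'] at hw
    norm_num at hw
  obtain ⟨r, hr⟩ := sq8 hw
  obtain ⟨r2, hr2⟩ := h2
  obtain ⟨r1, hr1⟩ := h1
  have hr0 : r ≠ 0 := by
    rintro rfl
    rw [mul_zero] at hr
    exact hw0 hr
  have ha0 : (a : ℚ_[2]) ≠ 0 := by
    have : a ≠ 0 := by rintro rfl; norm_num at ha
    exact_mod_cast this
  have hs0 : (s : ℚ_[2]) ≠ 0 := by exact_mod_cast hs
  have h2k : (2 : ℚ_[2]) ^ k ≠ 0 := pow_ne_zero _ two_ne_zero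
  have h2j : (2 : ℚ_[2]) ^ j ≠ 0 := pow_ne_zero _ two_ne_zero
  have h4k : (4 : ℚ_[2]) ^ k = 2 ^ k * 2 ^ k := by
    rw [← mul_pow]; norm_num
  have hD' : (s : ℚ_[2]) ^ 2 - 2 ^ k * 2 ^ k * m = 2 ^ j * D := by
    rw [← h4k]; exact_mod_cast hD
  have ht' : (2 : ℚ_[2]) ^ k * 2 ^ k * c ^ 2 * m = 2 ^ j * (8 * t) := by
    rw [← h4k]; exact_mod_cast ht
  push_cast at hr hr2
  generalize (2 : ℚ_[2]) ^ k = A at *
  generalize (2 : ℚ_[2]) ^ j = B at *
  refine ⟨(a * s / A) ^ 2, a ^ 2 * s * B * r / (A * A * A), ?_, ?_, ⟨a * s * r1 / A, ?_⟩,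
    ⟨a * r2 / A, ?_⟩⟩
  · exact div_ne_zero (mul_ne_zero (mul_ne_zero (mul_ne_zero (pow_ne_zero 2 ha0) hs0) h2j) hr0)
      (mul_ne_zero (mul_ne_zero h2k h2k) h2k)
  · have e1 : (a * s / A : ℚ_[2]) ^ 2 - (((a ^ 2 * m : ℤ)) : ℚ_[2]) = a ^ 2 * (B * D) / (A * A) := by
      push_cast
      rw [← hD']
      field_simp
    have e2 : (a * s / A : ℚ_[2]) ^ 2 - (((-(c ^ 2 - a ^ 2) * m : ℤ)) : ℚ_[2]) =
        B * (a ^ 2 * D + 8 * t) / (A * A) := by
      have e3 : B * (a ^ 2 * D + 8 * t : ℚ_[2]) = a ^ 2 * (B * D) + B * (8 * t) := by ring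
      rw [e3, ← hD', ← ht']
      push_cast
      field_simp
      ring
    rw [e1, e2]
    push_cast
    have e4 : (a ^ 2 * s * B * r / (A * A * A) : ℚ_[2]) ^ 2 =
        a ^ 4 * s ^ 2 * B ^ 2 * (r * r) / (A * A * A) ^ 2 := by ring
    rw [e4, ← hr]
    field_simp
    ring
  · push_cast
    rw [hr1]
    field_simp
    ring
  · have e1 : (a * s / A : ℚ_[2]) ^ 2 - (((a ^ 2 * m : ℤ)) : ℚ_[2]) = a ^ 2 * (B * D) / (A * A) := by
      push_cast
      rw [← hD']
      field_simp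
    rw [e1]
    have e4 : (a * r2 / A * (a * r2 / A) : ℚ_[2]) = a ^ 2 * (r2 * r2) / (A * A) := by ring
    rw [e4, ← hr2]
    ring

/-- the point with `x = 5 a ^ 2 m` -/
theorem pt5 {m a c d1 : ℤ} (ha : a % 2 = 1) (c' : ℤ) (hc : c = 4 * c') (hc' : c' % 2 = 1)
    (hm : m % 8 = 1) (hd : d1 % 8 = 5) :
    LocC ℚ_[2] 0 (a ^ 2 * m) (-(c ^ 2 - a ^ 2) * m) d1 1 := by
  have ha2 := odd_sq ha
  have hc2 := odd_sq hc'
  have hw : (5 * (a ^ 2 + 4 * c' ^ 2) * m) % 8 = 1 := by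
    have h1 : (5 * (a ^ 2 + 4 * c' ^ 2)) % 8 = 1 := by omega
    rw [Int.mul_emod, h1, hm]
    norm_num
  obtain ⟨r, hr⟩ := sq8 hw
  obtain ⟨r1, hr1⟩ := sq8 (n := 5 * d1 * m) (by
    have h1 : (5 * d1) % 8 = 1 := by omega
    rw [Int.mul_emod, h1, hm]
    norm_num)
  obtain ⟨r2, hr2⟩ := sq8 hm
  have hr0 : r ≠ 0 := by
    rintro rfl
    rw [mul_zero] at hr
    have h' : 5 * (a ^ 2 + 4 * c' ^ 2) * m = 0 := by exact_mod_cast hr
    rw [h'] at hw
    norm_num at hw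
  have ha0 : (a : ℚ_[2]) ≠ 0 := by
    have : a ≠ 0 := by rintro rfl; norm_num at ha
    exact_mod_cast this
  have hm0 : (m : ℚ_[2]) ≠ 0 := by
    have : m ≠ 0 := by rintro rfl; norm_num at hm
    exact_mod_cast this
  push_cast at hr hr1
  refine ⟨5 * a ^ 2 * m, 4 * a ^ 2 * m * r, ?_, ?_, ⟨a * r1, ?_⟩, ⟨2 * a * r2, ?_⟩⟩
  · exact mul_ne_zero (mul_ne_zero (mul_ne_zero (by norm_num) (pow_ne_zero 2 ha0)) hm0) hr0
  · rw [hc]
    push_cast
    have e4 : (4 * a ^ 2 * m * r : ℚ_[2]) ^ 2 = 16 * a ^ 4 * m ^ 2 * (r * r) := by ring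
    rw [e4, ← hr]
    ring
  · push_cast
    have e4 : (a * r1 * (a * r1) : ℚ_[2]) = a ^ 2 * (r1 * r1) := by ring
    rw [e4, ← hr1]
    ring
  · push_cast
    have e4 : (2 * a * r2 * (2 * a * r2) : ℚ_[2]) = 4 * a ^ 2 * (r2 * r2) := by ring
    rw [e4, ← hr2]
    ring

theorem hex {m a c : ℤ} (ha : a % 2 = 1) (hm : m ≠ 0) :
    ∃ x y : ℚ_[2], y ≠ 0 ∧ y ^ 2 = x * (x - a ^ 2 * m) * (x + (c ^ 2 - a ^ 2) * m) ∧ IsSquare x ∧
    IsSquare (x - a ^ 2 * m) ∧ IsSquare (x + (c ^ 2 - a ^ 2) * m) := by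
  have ha2 := odd_sq ha
  have hw1 : (1 - 16 * m) % 8 = 1 := by omega
  have hw2 : (a ^ 2 * (1 - 16 * m) + 16 * c ^ 2 * m) % 8 = 1 := by
    have e : a ^ 2 * (1 - 16 * m) + 16 * c ^ 2 * m = a ^ 2 + 8 * (2 * c ^ 2 * m - 2 * a ^ 2 * m) := by
      ring
    rw [e]
    omega
  obtain ⟨r1, hr1⟩ := sq8 hw1
  obtain ⟨r2, hr2⟩ := sq8 hw2
  have n1 : r1 ≠ 0 := by
    rintro rfl
    rw [mul_zero] at hr1
    have h' : (1 - 16 * m : ℤ) = 0 := by exact_mod_cast hr1
    rw [h'] at hw1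
    norm_num at hw1
  have n2 : r2 ≠ 0 := by
    rintro rfl
    rw [mul_zero] at hr2
    have h' : a ^ 2 * (1 - 16 * m) + 16 * c ^ 2 * m = 0 := by exact_mod_cast hr2
    rw [h'] at hw2
    norm_num at hw2
  have ha0 : (a : ℚ_[2]) ≠ 0 := by
    have : a ≠ 0 := by rintro rfl; norm_num at ha
    exact_mod_cast this
  push_cast at hr1 hr2
  have e1 : ((a / 4 : ℚ_[2]) * (a / 4)) - a ^ 2 * m = (a / 4 * r1) * (a / 4 * r1) := by
    have e3 : ((a / 4 : ℚ_[2]) * r1) * (a / 4 * r1) = a ^ 2 / 16 * (r1 * r1) := by ring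
    rw [e3, ← hr1]
    ring
  have e2 : ((a / 4 : ℚ_[2]) * (a / 4)) + (c ^ 2 - a ^ 2) * m = (r2 / 4) * (r2 / 4) := by
    have e3 : (r2 / 4 : ℚ_[2]) * (r2 / 4) = (r2 * r2) / 16 := by ring
    rw [e3, ← hr2]
    ring
  refine ⟨(a / 4) * (a / 4), (a / 4) * (a / 4 * r1) * (r2 / 4), ?_, ?_, ⟨_, rfl⟩, ⟨_, e1⟩, ⟨_, e2⟩⟩
  · have h4 : (4 : ℚ_[2]) ≠ 0 := by norm_num
    exact mul_ne_zero (mul_ne_zero (div_ne_zero ha0 h4) (mul_ne_zero (div_ne_zero ha0 h4) n1))
      (div_ne_zero n2 h4)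
  · rw [e1, e2]
    ring

/-- classes of norms, even `m` -/
theorem clE {m m' d α β : ℤ} (hm2 : m % 4 = 2) (hm' : m = 2 * m') (hd : ¬ d % 4 = 0)
    (hα : α = 0 ∨ α = 1 ∨ α = 4 ∨ α = 9) (hβ : β = 0 ∨ β = 1 ∨ β = 4 ∨ β = 9)
    (h : d % 16 = (α - m * β) % 16) : d % 8 = 1 ∨ d % 8 = (1 - m) % 8 ∨
      (d = 2 * (d / 2) ∧ (d / 2) % 8 = (-m') % 8) ∨
      (d = 2 * (d / 2) ∧ (d / 2) % 8 = (2 - m') % 8) := by
  rcases hα with rfl | rfl | rfl | rfl <;> rcases hβ with rfl | rfl | rfl | rfl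
  · exfalso; omega
  · right; right; left; constructor <;> omega
  · exfalso; omega
  · right; right; left; constructor <;> omega
  · left; omega
  · right; left; omega
  · left; omega
  · right; left; omega
  · exfalso; omega
  · right; right; right; constructor <;> omega
  · exfalso; omega
  · right; right; right; constructor <;> omega
  · left; omega
  · right; left; omega
  · left; omega
  · right; left; omega

/-- classes of norms, odd `m` -/
theorem clO {m D d α β : ℤ} (hm3 : m % 4 = 3) (hD : 1 - m = 2 * D) (hd : ¬ d % 4 = 0)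
    (hα : α = 0 ∨ α = 1 ∨ α = 4 ∨ α = 9) (hβ : β = 0 ∨ β = 1 ∨ β = 4 ∨ β = 9)
    (h : d % 16 = (α - m * β) % 16) : d % 8 = 1 ∨ d % 8 = 5 ∨
      (d = 2 * (d / 2) ∧ (d / 2) % 8 = D % 8) ∨
      (d = 2 * (d / 2) ∧ (d / 2) % 8 = (5 * D) % 8) := by
  have h2 : (d % 8 = 1 ∨ d % 8 = 5) → d % 8 = 1 ∨ d % 8 = 5 ∨
      (d = 2 * (d / 2) ∧ (d / 2) % 8 = D % 8) ∨
      (d = 2 * (d / 2) ∧ (d / 2) % 8 = (5 * D) % 8) := by
    rintro (h | h)
    · exact Or.inl h
    · exact Or.inr (Or.inl h)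
  rcases hα with rfl | rfl | rfl | rfl <;> rcases hβ with rfl | rfl | rfl | rfl
  · exfalso; omega
  · apply h2; omega
  · exfalso; omega
  · apply h2; omega
  · left; omega
  · right; right; left; constructor <;> omega
  · right; left; omega
  · right; right; right; constructor <;> omega
  · exfalso; omega
  · apply h2; omega
  · exfalso; omega
  · apply h2; omega
  · left; omega
  · right; right; right; constructor <;> omega
  · right; left; omega
  · right; right; left; constructor <;> omega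

/-- the place `2` -/
theorem t_L2 (hLT : S_LT) : S_L2 := by
  intro m a c hC hsm d1 d2 hs1 hs2
  have ha := hC.ha
  obtain ⟨c', hc⟩ : ∃ c', c = 4 * c' := ⟨c / 4, by have := hC.hc; omega⟩
  have hc' : c' % 2 = 1 := by have := hC.hc; omega
  have ha2 := odd_sq ha
  have hm0 : m ≠ 0 := hsm.ne_zero
  have hd1 : d1 ≠ 0 := hs1.ne_zero
  have hd2 : d2 ≠ 0 := hs2.ne_zero
  obtain ⟨hT, hA⟩ := hLT ℚ_[2] m a c hm0 hC (hex ha hm0)
  have one1 : IsSquare ((1 : ℤ) : ℚ_[2]) := sq8 (by norm_num)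
  -- assembly
  have asm : LocC ℚ_[2] 0 (a ^ 2 * m) (-(c ^ 2 - a ^ 2) * m) d1 1 →
      LocC ℚ_[2] 0 (a ^ 2 * m) (-(c ^ 2 - a ^ 2) * m) 1 d2 →
      LocC ℚ_[2] 0 (a ^ 2 * m) (-(c ^ 2 - a ^ 2) * m) d1 d2 := by
    intro h1 h2
    have := hA d1 1 1 d2 hd1 one_ne_zero one_ne_zero hd2 h1 h2
    rwa [mul_one, one_mul] at this
  have T1 : IsSquare (d1 : ℚ_[2]) ∨ IsSquare ((d1 : ℚ_[2]) * m) →
      LocC ℚ_[2] 0 (a ^ 2 * m) (-(c ^ 2 - a ^ 2) * m) d1 1 := fun h =>
    hT d1 1 hd1 one_ne_zero (Or.inl ⟨one1, h⟩)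
  have T2 : ∀ d : ℤ, d % 8 = 1 → LocC ℚ_[2] 0 (a ^ 2 * m) (-(c ^ 2 - a ^ 2) * m) 1 d := by
    intro d hd
    refine hT 1 d one_ne_zero (by omega) (Or.inl ⟨sq8 hd, Or.inl one1⟩)
  have sqc : IsSquare (((1 : ℤ) : ℚ_[2]) * (-((c : ℚ_[2]) ^ 2 - (a : ℚ_[2]) ^ 2))) := by
    have h := sq8 (n := a ^ 2 - c ^ 2) (by
      have e : c ^ 2 = 8 * (2 * c' ^ 2) := by rw [hc]; ring
      omega)
    push_cast at h ⊢
    have e : (1 : ℚ_[2]) * (-((c : ℚ_[2]) ^ 2 - (a : ℚ_[2]) ^ 2)) = (a : ℚ_[2]) ^ 2 - c ^ 2 := by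
      ring
    rw [e]
    exact h
  -- odd `m`
  have P5 : m % 2 = 1 → ∀ d : ℤ, d % 8 = 5 →
      LocC ℚ_[2] 0 (a ^ 2 * m) (-(c ^ 2 - a ^ 2) * m) 1 d := by
    intro hm d hd
    refine pt 1 1 0 (1 - 4 * m) (8 * c' ^ 2 * m) ha one_ne_zero (by ring) (by omega)
      (by rw [hc]; ring) one1 ?_
    rw [pow_zero, one_mul]
    refine sq8 ?_
    have h1 : (1 - 4 * m) % 8 = 5 := by omega
    rw [Int.mul_emod, hd, h1]
    norm_num
  constructor
  · intro hm h1 h2
    have hm8 : m % 8 = 1 ∨ m % 8 = 5 := by omega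
    have h18 : d1 % 8 = 1 ∨ d1 % 8 = 5 := by omega
    apply asm
    · rcases h18 with h18 | h18
      · exact T1 (Or.inl (sq8 h18))
      · rcases hm8 with hm8 | hm8
        · exact pt5 ha c' hc hc' hm8 h18
        · refine T1 (Or.inr ?_)
          have := sq8 (n := d1 * m) (by rw [Int.mul_emod, h18, hm8]; norm_num)
          push_cast at this
          exact this
    · have P2 : (d2 * (4 - m)) % 8 = 1 →
          LocC ℚ_[2] 0 (a ^ 2 * m) (-(c ^ 2 - a ^ 2) * m) 1 d2 := by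
        intro h
        refine pt 2 0 0 (4 - m) (2 * c' ^ 2 * m) ha two_ne_zero (by ring) (by omega)
          (by rw [hc]; ring) one1 ?_
        rw [pow_zero, one_mul]
        exact sq8 h
      have P3 : (d2 * (16 - m)) % 8 = 1 →
          LocC ℚ_[2] 0 (a ^ 2 * m) (-(c ^ 2 - a ^ 2) * m) 1 d2 := by
        intro h
        refine pt 4 0 0 (16 - m) (2 * c' ^ 2 * m) ha (by norm_num) (by ring) (by omega)
          (by rw [hc]; ring) one1 ?_
        rw [pow_zero, one_mul]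
        exact sq8 h
      have h28 : d2 % 8 = 1 ∨ d2 % 8 = 5 ∨ d2 % 8 = 3 ∨ d2 % 8 = 7 := by omega
      rcases h28 with h28 | h28 | h28 | h28
      · exact T2 _ h28
      · exact P5 (by omega) _ h28
      · rcases hm8 with hm8 | hm8
        · refine P2 ?_
          have h5 : (4 - m) % 8 = 3 := by omega
          rw [Int.mul_emod, h28, h5]; norm_num
        · refine P3 ?_
          have h5 : (16 - m) % 8 = 3 := by omega
          rw [Int.mul_emod, h28, h5]; norm_num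
      · rcases hm8 with hm8 | hm8
        · refine P3 ?_
          have h5 : (16 - m) % 8 = 7 := by omega
          rw [Int.mul_emod, h28, h5]; norm_num
        · refine P2 ?_
          have h5 : (4 - m) % 8 = 7 := by omega
          rw [Int.mul_emod, h28, h5]; norm_num
  · intro hm h1 hnorm
    have n4 : ∀ z : ℤ, Squarefree z → ¬ (4 : ℤ) ∣ z := by
      intro z hz h4
      have := hz 2 (by norm_num; exact h4)
      rw [Int.isUnit_iff] at this
      omega
    have hm4 := n4 m hsm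
    have hd4 := n4 d2 hs2
    have hm23 : m % 4 = 2 ∨ m % 4 = 3 := by omega
    obtain ⟨α, β, hα, hβ, h16⟩ := norm_res hm23 hnorm
    apply asm (T1 h1)
    rcases hm23 with hm2 | hm3
    · -- even `m`
      obtain ⟨m', hm'⟩ : ∃ m', m = 2 * m' := ⟨m / 2, by omega⟩
      have hm'8 : m' % 8 = 1 ∨ m' % 8 = 3 ∨ m' % 8 = 5 ∨ m' % 8 = 7 := by omega
      have P1 : ∀ d : ℤ, (d * (1 - m)) % 8 = 1 →
          LocC ℚ_[2] 0 (a ^ 2 * m) (-(c ^ 2 - a ^ 2) * m) 1 d := by
        intro d h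
        refine pt 1 0 0 (1 - m) (2 * c' ^ 2 * m) ha one_ne_zero (by ring) (by omega)
          (by rw [hc]; ring) one1 ?_
        rw [pow_zero, one_mul]
        exact sq8 h
      have PT : ∀ d : ℤ, d ≠ 0 → IsSquare ((d : ℚ_[2]) * (-m)) →
          LocC ℚ_[2] 0 (a ^ 2 * m) (-(c ^ 2 - a ^ 2) * m) 1 d := fun d hd h =>
        hT 1 d one_ne_zero hd (Or.inr ⟨h, Or.inl sqc⟩)
      have hcl := clE hm2 hm' (by omega) hα hβ h16
      rcases hcl with hcl | hcl | ⟨e, hcl⟩ | ⟨e, hcl⟩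
      · exact T2 _ hcl
      · refine P1 _ ?_
        rw [Int.mul_emod, hcl]
        rcases hm'8 with h | h | h | h
        · have h5 : (1 - m) % 8 = 7 := by omega
          rw [h5]; norm_num
        · have h5 : (1 - m) % 8 = 3 := by omega
          rw [h5]; norm_num
        · have h5 : (1 - m) % 8 = 7 := by omega
          rw [h5]; norm_num
        · have h5 : (1 - m) % 8 = 3 := by omega
          rw [h5]; norm_num
      · refine PT _ hd2 ?_
        have h6 : (d2 / 2 * (-m')) % 8 = 1 := by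
          rw [Int.mul_emod, hcl]
          rcases hm'8 with h | h | h | h
          · have h5 : (-m') % 8 = 7 := by omega
            rw [h5]; norm_num
          · have h5 : (-m') % 8 = 5 := by omega
            rw [h5]; norm_num
          · have h5 : (-m') % 8 = 3 := by omega
            rw [h5]; norm_num
          · have h5 : (-m') % 8 = 1 := by omega
            rw [h5]; norm_num
        have h7 := sqI (n := d2 * (-m)) 1 _ (by
          rw [hm']; generalize d2 / 2 = z at e; rw [e]; ring) h6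
        push_cast at h7
        exact h7
      · have L1 := P1 (1 - m) (by
          rw [← pow_two]
          exact odd_sq (by omega))
        have L2 := PT (-m) (by omega) (by
          push_cast
          exact ⟨-m, rfl⟩)
        have L3 := hA 1 (1 - m) 1 (-m) one_ne_zero (by omega) one_ne_zero (by omega) L1 L2
        rw [mul_one] at L3
        refine chg _ _ L3 (by norm_num) ?_ ⟨1, by norm_num⟩ ?_
        · have : (1 - m) * (-m) ≠ 0 := mul_ne_zero (by omega) (by omega)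
          exact_mod_cast this
        · have h6 : ((1 - m) * (-m') * (d2 / 2)) % 8 = 1 := by
            rw [Int.mul_emod, Int.mul_emod (1 - m), hcl]
            rcases hm'8 with h | h | h | h
            · have h5 : (-m') % 8 = 7 := by omega
              have h6 : (1 - m) % 8 = 7 := by omega
              have h7 : (2 - m') % 8 = 1 := by omega
              rw [h5, h6, h7]; norm_num
            · have h5 : (-m') % 8 = 5 := by omega
              have h6 : (1 - m) % 8 = 3 := by omega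
              have h7 : (2 - m') % 8 = 7 := by omega
              rw [h5, h6, h7]; norm_num
            · have h5 : (-m') % 8 = 3 := by omega
              have h6 : (1 - m) % 8 = 7 := by omega
              have h7 : (2 - m') % 8 = 5 := by omega
              rw [h5, h6, h7]; norm_num
            · have h5 : (-m') % 8 = 1 := by omega
              have h6 : (1 - m) % 8 = 3 := by omega
              have h7 : (2 - m') % 8 = 3 := by omega
              rw [h5, h6, h7]; norm_num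
          have h7 := sqI (n := (1 - m) * (-m) * d2) 1 _ (by
            generalize d2 / 2 = z at e
            rw [e, hm']
            ring) h6
          push_cast at h7 ⊢
          exact h7
    · -- odd `m`
      obtain ⟨D, hD⟩ : ∃ D, 1 - m = 2 * D := ⟨(1 - m) / 2, by omega⟩
      have hDo : D % 2 = 1 := by omega
      have hD8 : D % 8 = 1 ∨ D % 8 = 3 ∨ D % 8 = 5 ∨ D % 8 = 7 := by omega
      have P1 : ∀ d : ℤ, IsSquare ((d * (2 ^ 1 * D) : ℤ) : ℚ_[2]) →
          LocC ℚ_[2] 0 (a ^ 2 * m) (-(c ^ 2 - a ^ 2) * m) 1 d := by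
        intro d h
        refine pt 1 0 1 D (c' ^ 2 * m) ha one_ne_zero (by rw [pow_zero, pow_one]; linarith) hDo
          (by rw [hc]; ring) one1 h
      have hcl := clO hm3 hD (by omega) hα hβ h16
      rcases hcl with hcl | hcl | ⟨e, hcl⟩ | ⟨e, hcl⟩
      · exact T2 _ hcl
      · exact P5 (by omega) _ hcl
      · refine P1 _ (sqI 1 (d2 / 2 * D) ?_ ?_)
        · generalize d2 / 2 = z at e
          rw [e]
          ring
        · rw [Int.mul_emod, hcl]
          rcases hD8 with h | h | h | h <;> rw [h] <;> norm_num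
      · have L1 := P1 (2 * D) ⟨((2 * D : ℤ) : ℚ_[2]), by push_cast; ring⟩
        have L2 := P5 (by omega) 5 (by norm_num)
        have L3 := hA 1 (2 * D) 1 5 one_ne_zero (by omega) one_ne_zero (by norm_num) L1 L2
        rw [mul_one] at L3
        refine chg _ _ L3 (by norm_num) ?_ ⟨1, by norm_num⟩ ?_
        · have : 2 * D * 5 ≠ 0 := by omega
          exact_mod_cast this
        · have h6 : (5 * D * (d2 / 2)) % 8 = 1 := by
            rw [Int.mul_emod, hcl]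
            rcases hD8 with h | h | h | h
            · have h5 : (5 * D) % 8 = 5 := by omega
              rw [h5]; norm_num
            · have h5 : (5 * D) % 8 = 7 := by omega
              rw [h5]; norm_num
            · have h5 : (5 * D) % 8 = 1 := by omega
              rw [h5]; norm_num
            · have h5 : (5 * D) % 8 = 3 := by omega
              rw [h5]; norm_num
          have h7 := sqI (n := 2 * D * 5 * d2) 1 _ (by
            generalize d2 / 2 = z at e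
            rw [e]
            ring) h6
          push_cast at h7 ⊢
          exact h7

/-- the real place -/
theorem t_LR : S_LR := by
  intro m a c hC hm d1 d2 hs1 hs2
  have hd1 : d1 ≠ 0 := hs1.ne_zero
  have hd2 : d2 ≠ 0 := hs2.ne_zero
  have hm' : (m : ℝ) < 0 := by exact_mod_cast hm
  have ha : (1 : ℝ) ≤ (a : ℝ) ^ 2 := by
    have h1 : a ≠ 0 := by
      rintro rfl
      have := hC.ha
      norm_num at this
    have h2 : 1 ≤ a ^ 2 := by
      have : 0 < a ^ 2 := by positivity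
      omega
    exact_mod_cast h2
  have hc : (1 : ℝ) ≤ (c : ℝ) ^ 2 := by
    have h1 : c ≠ 0 := by
      rintro rfl
      have := hC.hc
      norm_num at this
    have h2 : 1 ≤ c ^ 2 := by
      have : 0 < c ^ 2 := by positivity
      omega
    exact_mod_cast h2
  constructor
  · rintro ⟨x, y, hy, he, -, h2⟩
    rw [Real.isSquare_iff] at h2
    push_cast at he h2
    have hy2 : 0 < y ^ 2 := by positivity
    have hx : 0 < x - (a : ℝ) ^ 2 * m := by
      by_contra hcon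
      push Not at hcon
      have k1 : x < 0 := by nlinarith
      have k2 : x - -((c : ℝ) ^ 2 - (a : ℝ) ^ 2) * m < 0 := by nlinarith
      have k3 : 0 ≤ (x - (a : ℝ) ^ 2 * m) * (x - -((c : ℝ) ^ 2 - (a : ℝ) ^ 2) * m) :=
        mul_nonneg_of_nonpos_of_nonpos hcon k2.le
      have k4 : x * ((x - (a : ℝ) ^ 2 * m) * (x - -((c : ℝ) ^ 2 - (a : ℝ) ^ 2) * m)) ≤ 0 :=
        mul_nonpos_of_nonpos_of_nonneg k1.le k3
      have k5 : y ^ 2 = x * ((x - (a : ℝ) ^ 2 * m) * (x - -((c : ℝ) ^ 2 - (a : ℝ) ^ 2) * m)) := by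
        rw [he]; ring
      linarith
    have h3 : (0 : ℝ) ≤ d2 := nonneg_of_mul_nonneg_right h2 hx
    have h4 : 0 ≤ d2 := by exact_mod_cast h3
    omega
  · intro hd
    have hd2' : (0 : ℝ) < d2 := by exact_mod_cast hd
    have key : ∀ x : ℝ, 0 < x * (x - (a : ℝ) ^ 2 * m) * (x + ((c : ℝ) ^ 2 - (a : ℝ) ^ 2) * m) →
        0 ≤ x * d1 → 0 ≤ x - (a : ℝ) ^ 2 * m →
        LocC ℝ 0 (a ^ 2 * m) (-(c ^ 2 - a ^ 2) * m) d1 d2 := by
      intro x h1 h2 h3
      refine ⟨x, Real.sqrt (x * (x - (a : ℝ) ^ 2 * m) * (x + ((c : ℝ) ^ 2 - (a : ℝ) ^ 2) * m)),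
        (Real.sqrt_pos.2 h1).ne', ?_, ?_, ?_⟩
      · rw [Real.sq_sqrt h1.le]
        push_cast
        ring
      · push_cast
        rw [sub_zero]
        exact (Real.isSquare_iff).2 h2
      · push_cast
        exact (Real.isSquare_iff).2 (mul_nonneg h3 hd2'.le)
    rcases lt_or_gt_of_ne hd1 with h | h
    · have h' : (d1 : ℝ) < 0 := by exact_mod_cast h
      have k1 : (a : ℝ) ^ 2 * m - m / 2 < 0 := by nlinarith
      have k2 : 0 < (a : ℝ) ^ 2 * m - m / 2 - (a : ℝ) ^ 2 * m := by linarith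
      have k3 : (a : ℝ) ^ 2 * m - m / 2 + ((c : ℝ) ^ 2 - (a : ℝ) ^ 2) * m < 0 := by nlinarith
      refine key ((a : ℝ) ^ 2 * m - m / 2) ?_ (mul_nonneg_of_nonpos_of_nonpos k1.le h'.le) k2.le
      exact mul_pos_of_neg_of_neg (mul_neg_of_neg_of_pos k1 k2) k3
    · have h' : (0 : ℝ) < d1 := by exact_mod_cast h
      have k1 : 0 < ((a : ℝ) ^ 2 + (c : ℝ) ^ 2) * (-m) := mul_pos (by linarith) (by linarith)
      have k2 : 0 < ((a : ℝ) ^ 2 + (c : ℝ) ^ 2) * (-m) - (a : ℝ) ^ 2 * m := by nlinarith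
      have k3 : 0 < ((a : ℝ) ^ 2 + (c : ℝ) ^ 2) * (-m) + ((c : ℝ) ^ 2 - (a : ℝ) ^ 2) * m := by
        nlinarith
      exact key (((a : ℝ) ^ 2 + (c : ℝ) ^ 2) * (-m)) (mul_pos (mul_pos k1 k2) k3)
        (mul_nonneg k1.le h'.le) k2.le

end Pool.Agent.N691.SLK
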